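import Pool.Agent.V5helper41.PD.Stm

/-!
# Job LVL: elements of the field of all roots lie at a finite level
-/

set_option autoImplicit false

namespace V5helper82.PD

open IntermediateField Polynomial
open Pool.Agent.H58P (Qb)
open Pool.Agent.W237.RK
open V5helper41.PD

theorem kx_pow (θ : Qb) (k : ℕ) : Kx (θ ^ k) ≤ Kx θ := by
  refine sup_le le_sup_left ?_
  refine le_trans ?_ (le_sup_right : ℚ⟮θ⟯ ≤ Kmu ⊔ ℚ⟮θ⟯)
  rw [adjoin_simple_le_iff]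
  exact pow_mem (mem_adjoin_simple_self ℚ θ) k

theorem t_LVL : S_LVL := by
  intro a ha α hα m hm
  have ha0 : (a : Qb) ≠ 0 := by
    have : a ≠ 0 := by omega
    exact_mod_cast this
  have key : ∃ n : ℕ, 0 < n ∧ m ∣ n ∧ ∀ θ : Qb, θ ^ n = (a : Qb) → α ∈ Kx θ := by
    refine adjoin_induction (F := ℚ) (p := fun x _ => ∃ n : ℕ, 0 < n ∧ m ∣ n ∧
      ∀ θ : Qb, θ ^ n = (a : Qb) → x ∈ Kx θ) ?_ ?_ ?_ ?_ ?_ hα
    · rintro y ⟨k, hk, j, hy⟩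
      refine ⟨m * k, Nat.mul_pos hm hk, ⟨k, rfl⟩, fun θ hθ => ?_⟩
      have hθ0 : θ ≠ 0 := by
        rintro rfl
        rw [zero_pow (Nat.mul_pos hm hk).ne'] at hθ
        exact ha0 hθ.symm
      have h1 : (θ ^ ((m : ℤ) * j)) ^ k = (a : Qb) ^ j := by
        rw [← hθ, ← zpow_natCast, ← zpow_natCast, ← zpow_mul, ← zpow_mul]
        congr 1
        push_cast
        ring
      have h2 : θ ^ ((m : ℤ) * j) ≠ 0 := zpow_ne_zero _ hθ0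
      have h3 : y / θ ^ ((m : ℤ) * j) ∈ Kmu := by
        refine subset_adjoin ℚ _ ⟨k, hk, ?_⟩
        rw [div_pow, h1, hy, div_self (zpow_ne_zero _ ha0)]
      have h4 : y = (y / θ ^ ((m : ℤ) * j)) * θ ^ ((m : ℤ) * j) := by
        field_simp
      rw [h4]
      refine mul_mem ((le_sup_left : Kmu ≤ Kmu ⊔ ℚ⟮θ⟯) h3) ?_
      exact (le_sup_right : ℚ⟮θ⟯ ≤ Kmu ⊔ ℚ⟮θ⟯) (zpow_mem (mem_adjoin_simple_self ℚ θ) _)
    · intro x
      exact ⟨m, hm, dvd_rfl, fun θ _ => IntermediateField.algebraMap_mem _ x⟩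
    · rintro x y _ _ ⟨n, hn, hmn, h⟩ ⟨n', hn', hmn', h'⟩
      refine ⟨n * n', Nat.mul_pos hn hn', dvd_mul_of_dvd_left hmn _, fun θ hθ => add_mem ?_ ?_⟩
      · exact kx_pow θ n' (h _ (by rw [← pow_mul, mul_comm, hθ]))
      · exact kx_pow θ n (h' _ (by rw [← pow_mul, hθ]))
    · rintro x _ ⟨n, hn, hmn, h⟩
      exact ⟨n, hn, hmn, fun θ hθ => inv_mem (h θ hθ)⟩
    · rintro x y _ _ ⟨n, hn, hmn, h⟩ ⟨n', hn', hmn', h'⟩
      refine ⟨n * n', Nat.mul_pos hn hn', dvd_mul_of_dvd_left hmn _, fun θ hθ => mul_mem ?_ ?_⟩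
      · exact kx_pow θ n' (h _ (by rw [← pow_mul, mul_comm, hθ]))
      · exact kx_pow θ n (h' _ (by rw [← pow_mul, hθ]))
  obtain ⟨n, hn, hmn, h⟩ := key
  obtain ⟨θ, hθ⟩ := IsAlgClosed.exists_pow_nat_eq (a : Qb) hn
  exact ⟨n, θ, hn, hmn, hθ, h θ hθ⟩

end V5helper82.PD
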